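import Pool.Agent.TH212.DV.C6
import Pool.Agent.TH212.PL.L1

set_option autoImplicit false

/-! Project SP (helper958): fourth moment of the divisor functions, core (job 6365). -/

namespace Pool.Agent.Y434.SP
open Finset
open Pool.Agent.TH212.DV

theorem m4_core : ∀ t : ℕ, ∃ C N₀ : ℕ, ∀ N : ℕ, N₀ ≤ N →
    ∑ n ∈ Icc 1 (2 * N), (dk (t + 2) n : ℝ) ^ 4 ≤ N * Real.log N ^ C := by
  intro t
  obtain ⟨k, hk⟩ : ∃ k : ℕ, k = 2 ^ (4 * t + 8) := ⟨_, rfl⟩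
  obtain ⟨N₀, hN₀⟩ := ev_log (2 * 3 ^ k)
  refine ⟨k + 1, N₀ + 1, fun N hN => ?_⟩
  have hN0 : (0 : ℝ) < N := by exact_mod_cast (by omega : 0 < N)
  obtain ⟨L, hL⟩ : ∃ L, L = Real.log N := ⟨_, rfl⟩
  have hL1 : 2 * 3 ^ k ≤ L := by rw [hL]; exact hN₀ N (by omega)
  have h3k : (1 : ℝ) ≤ 3 ^ k := one_le_pow₀ (by norm_num)
  have hL2 : 2 ≤ L := by linarith
  rw [← hL]
  have f1 : ∀ n ∈ Icc 1 (2 * N), (dk (t + 2) n : ℝ) ^ 4 ≤
      2 * N * ((n.divisors.card : ℝ) ^ (4 * t + 8) / n) := by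
    intro n hn
    rw [mem_Icc] at hn
    have hn0 : (0 : ℝ) < n := by exact_mod_cast (by omega : 0 < n)
    have g2 : (dk (t + 2) n : ℝ) ≤ (n.divisors.card : ℝ) ^ (t + 2) := by
      exact_mod_cast dk_le_tau (t + 2) n
    calc (dk (t + 2) n : ℝ) ^ 4 ≤ ((n.divisors.card : ℝ) ^ (t + 2)) ^ 4 :=
          pow_le_pow_left₀ (Nat.cast_nonneg _) g2 4
      _ = (n.divisors.card : ℝ) ^ (4 * t + 8) := by rw [← pow_mul]; congr 1; ring
      _ ≤ 2 * N * ((n.divisors.card : ℝ) ^ (4 * t + 8) / n) := by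
          rw [mul_div_assoc', le_div_iff₀ hn0, mul_comm]
          exact mul_le_mul_of_nonneg_right (by exact_mod_cast hn.2) (by positivity)
  refine (sum_le_sum f1).trans ?_
  rw [← mul_sum]
  have f2 := Pool.Agent.TH212.PL.tau_pow_div (4 * t + 8) (2 * N)
  rw [← hk] at f2
  have f3 : 1 + Real.log ((2 * N : ℕ) : ℝ) ≤ 3 * L := by
    push_cast
    rw [Real.log_mul two_ne_zero hN0.ne', ← hL]
    have := Real.log_two_lt_d9
    linarith
  have f4 : (0 : ℝ) ≤ 1 + Real.log ((2 * N : ℕ) : ℝ) := by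
    have := Real.log_natCast_nonneg (2 * N)
    linarith
  calc 2 * N * ∑ n ∈ Icc 1 (2 * N), (n.divisors.card : ℝ) ^ (4 * t + 8) / n ≤
        2 * N * (3 * L) ^ k := by
        refine mul_le_mul_of_nonneg_left (f2.trans (pow_le_pow_left₀ f4 f3 k)) (by positivity)
    _ = (N * L ^ k) * (2 * 3 ^ k) := by rw [mul_pow]; ring
    _ ≤ (N * L ^ k) * L := mul_le_mul_of_nonneg_left hL1 (by positivity)
    _ = N * L ^ (k + 1) := by ring

end Pool.Agent.Y434.SP
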