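import Pool.Agent.Y958.SP.Stm
import Pool.Agent.Y434.SP.M4

set_option autoImplicit false

/-! Project SP (helper958): fourth moment of the divisor functions (job 6365). -/

namespace Pool.Agent.Y434.SP

theorem t_M4 : Pool.Agent.Y958.SP.M4 := m4_core

end Pool.Agent.Y434.SP
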